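import Mathlib

set_option autoImplicit false

namespace Pool.Agent.Results.MP_5a34df_al.NonSemigroup

open Matrix

universe u v

/-- The class of the matrix unit `e_{ij}`: the classes with more than one element are
`{e_00, e_11, e_22}`, `{e_01, e_10}` and `{e_12, e_20}`. -/
def c (i j : ℕ) : ℕ × ℕ :=
  if i < 3 ∧ i = j then (0, 0)
  else if i = 1 ∧ j = 0 then (0, 1)
  else if i = 2 ∧ j = 0 then (1, 2)
  else (i, j)

/-- the relation `c i j = c i' j'` -/
def R (i j i' j' : ℕ) : Prop :=
  (i = i' ∧ j = j') ∨ (i = j ∧ i < 3 ∧ i' = j' ∧ i' < 3) ∨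
  (i = 0 ∧ j = 1 ∧ i' = 1 ∧ j' = 0) ∨ (i = 1 ∧ j = 0 ∧ i' = 0 ∧ j' = 1) ∨
  (i = 1 ∧ j = 2 ∧ i' = 2 ∧ j' = 0) ∨ (i = 2 ∧ j = 0 ∧ i' = 1 ∧ j' = 2)

lemma c_eq_iff (i j i' j' : ℕ) : c i j = c i' j' ↔ R i j i' j' := by
  unfold c R
  split_ifs <;> simp only [Prod.mk.injEq] <;> first | omega | (simp only [true_iff]; omega)

lemma R_comp {i j k i' j' k' : ℕ} (h1 : R i j i' j') (h2 : R j k j' k') : R i k i' k' := by
  unfold R at *
  rcases h1 with h1 | h1 | h1 | h1 | h1 | h1 <;> rcases h2 with h2 | h2 | h2 | h2 | h2 | h2 <;>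
    first
      | (exfalso; omega)
      | (refine Or.inl ?_; omega)
      | (refine Or.inr (Or.inl ?_); omega)
      | (refine Or.inr (Or.inr (Or.inl ?_)); omega)
      | (refine Or.inr (Or.inr (Or.inr (Or.inl ?_))); omega)
      | (refine Or.inr (Or.inr (Or.inr (Or.inr (Or.inl ?_)))); omega)
      | (refine Or.inr (Or.inr (Or.inr (Or.inr (Or.inr ?_)))); omega)

lemma c_comp {i j k i' j' k' : ℕ} (h1 : c i j = c i' j') (h2 : c j k = c j' k') :
    c i k = c i' k' :=
  (c_eq_iff _ _ _ _).mpr (R_comp ((c_eq_iff _ _ _ _).mp h1) ((c_eq_iff _ _ _ _).mp h2))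

/-- The set of classes. -/
abbrev Γ (n : ℕ) : Type := {x : ℕ × ℕ // ∃ i j : Fin n, c i j = x}

/-- The class of a matrix unit. -/
def cl {n : ℕ} (i j : Fin n) : Γ n := ⟨c i j, i, j, rfl⟩

variable (K : Type u) [Field K] (n : ℕ)

/-- The span of the matrix units of a class. -/
def A (g : Γ n) : Submodule K (Matrix (Fin n) (Fin n) K) where
  carrier := {M | ∀ i j, cl i j ≠ g → M i j = 0}
  add_mem' := by
    intro a b ha hb i j h
    rw [Matrix.add_apply, ha i j h, hb i j h, add_zero]
  zero_mem' := fun _ _ _ => rfl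
  smul_mem' := by
    intro r a ha i j h
    rw [Matrix.smul_apply, ha i j h, smul_zero]

lemma single_mem (i j : Fin n) (r : K) : Matrix.single i j r ∈ A K n (cl i j) := by
  intro i' j' h
  rw [Matrix.single_apply, if_neg]
  rintro ⟨rfl, rfl⟩
  exact h rfl

lemma internal : DirectSum.IsInternal (A K n) := by
  rw [DirectSum.isInternal_submodule_iff_iSupIndep_and_iSup_eq_top]
  constructor
  · rw [iSupIndep_def]
    intro g
    rw [Submodule.disjoint_def]
    intro M hM hM'
    let B : Submodule K (Matrix (Fin n) (Fin n) K) :=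
      { carrier := {M | ∀ i j, cl i j = g → M i j = 0}
        add_mem' := by
          intro a b ha hb i j h
          rw [Matrix.add_apply, ha i j h, hb i j h, add_zero]
        zero_mem' := fun _ _ _ => rfl
        smul_mem' := by
          intro r a ha i j h
          rw [Matrix.smul_apply, ha i j h, smul_zero] }
    have hB : ⨆ (h : Γ n) (_ : h ≠ g), A K n h ≤ B := by
      refine iSup₂_le fun h hg N hN i j hij => hN i j ?_
      rintro rfl
      exact hg hij
    ext i j
    by_cases h : cl i j = g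
    · exact hB hM' i j h
    · exact hM i j h
  · rw [eq_top_iff]
    intro M _
    rw [Matrix.matrix_eq_sum_single M]
    refine Submodule.sum_mem _ fun i _ => Submodule.sum_mem _ fun j _ => ?_
    exact (le_iSup (A K n) (cl i j)) (single_mem K n i j _)

/-- `A g * A h` is nonzero iff there is a pair of composable matrix units. -/
lemma mul_ne_bot_iff (g h : Γ n) :
    A K n g * A K n h ≠ ⊥ ↔ ∃ i j k : Fin n, cl i j = g ∧ cl j k = h := by
  constructor
  · intro hne
    by_contra hcon
    push Not at hcon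
    apply hne
    rw [eq_bot_iff, Submodule.mul_le]
    intro M hM N hN
    rw [Submodule.mem_bot]
    ext i k
    rw [Matrix.mul_apply, Matrix.zero_apply]
    refine Finset.sum_eq_zero fun j _ => ?_
    by_cases h1 : cl i j = g
    · rw [hN j k (hcon i j k h1), mul_zero]
    · rw [hM i j h1, zero_mul]
  · rintro ⟨i, j, k, rfl, rfl⟩ hbot
    have h1 := Submodule.mul_mem_mul (single_mem K n i j 1) (single_mem K n j k 1)
    rw [hbot, Submodule.mem_bot, Matrix.single_mul_single_same, mul_one] at h1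
    have h2 := congrFun (congrFun h1 i) k
    rw [Matrix.single_apply_same, Matrix.zero_apply] at h2
    exact one_ne_zero h2

open Classical in
/-- The partial operation. -/
noncomputable def op (g h : Γ n) : Option (Γ n) :=
  if H : ∃ x : Γ n, ∃ i j k : Fin n, cl i j = g ∧ cl j k = h ∧ cl i k = x then some H.choose
  else none

lemma op_isSome (g h : Γ n) :
    (op n g h).isSome ↔ ∃ i j k : Fin n, cl i j = g ∧ cl j k = h := by
  unfold op
  split_ifs with H
  · simp only [Option.isSome_some, true_iff]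
    obtain ⟨x, i, j, k, h1, h2, _⟩ := H
    exact ⟨i, j, k, h1, h2⟩
  · simp only [Option.isSome_none, Bool.false_eq_true, false_iff]
    rintro ⟨i, j, k, h1, h2⟩
    exact H ⟨cl i k, i, j, k, h1, h2, rfl⟩

lemma op_eq {g h x : Γ n} (hx : op n g h = some x) {i j k : Fin n} (h1 : cl i j = g)
    (h2 : cl j k = h) : cl i k = x := by
  unfold op at hx
  split_ifs at hx with H
  obtain ⟨i', j', k', h1', h2', h3'⟩ := H.choose_spec
  rw [Option.some.injEq] at hx
  rw [← hx, ← h3']
  apply Subtype.ext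
  have e1 : c i j = c i' j' := congrArg Subtype.val (h1.trans h1'.symm)
  have e2 : c j k = c j' k' := congrArg Subtype.val (h2.trans h2'.symm)
  exact c_comp e1 e2

lemma op_cl (i j k : Fin n) : op n (cl i j) (cl j k) = some (cl i k) := by
  have h1 : (op n (cl i j) (cl j k)).isSome := (op_isSome n _ _).mpr ⟨i, j, k, rfl, rfl⟩
  obtain ⟨x, hx⟩ := Option.isSome_iff_exists.mp h1
  rw [hx, op_eq n hx rfl rfl]

/-- **For every field `K` and every `n ≥ 3` the algebra `M_n(K)` has a grading over a set (with a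
partial operation) which is not a semigroup grading.** -/
theorem result (K : Type u) [Field K] (n : ℕ) (hn : 3 ≤ n) :
    ∃ (Γ : Type) (_ : DecidableEq Γ) (A : Γ → Submodule K (Matrix (Fin n) (Fin n) K)) (op : Γ → Γ → Option Γ),
      DirectSum.IsInternal A ∧ (∀ g, A g ≠ ⊥) ∧
      (∀ g h, (op g h).isSome ↔ A g * A h ≠ ⊥) ∧
      (∀ g h k, op g h = some k → A g * A h ≤ A k) ∧
      ¬ ∃ (G : Type v) (_ : Semigroup G) (ι : Γ → G), Function.Injective ι ∧
        ∀ g h k, op g h = some k → ι k = ι g * ι h := by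
  refine ⟨Γ n, inferInstance, A K n, op n, internal K n, ?_, ?_, ?_, ?_⟩
  · rintro ⟨x, i, j, hx⟩ hbot
    have h1 := single_mem K n i j 1
    have h2 : cl i j = (⟨x, i, j, hx⟩ : Γ n) := Subtype.ext hx
    rw [h2, hbot, Submodule.mem_bot] at h1
    have h3 := congrFun (congrFun h1 i) j
    rw [Matrix.single_apply_same, Matrix.zero_apply] at h3
    exact one_ne_zero h3
  · intro g h
    rw [op_isSome, mul_ne_bot_iff]
  · intro g h x hx
    rw [Submodule.mul_le]
    intro M hM N hN i k hik
    rw [Matrix.mul_apply]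
    refine Finset.sum_eq_zero fun j _ => ?_
    by_cases h1 : cl i j = g
    · by_cases h2 : cl j k = h
      · exact absurd (op_eq n hx h1 h2) hik
      · rw [hN j k h2, mul_zero]
    · rw [hM i j h1, zero_mul]
  · rintro ⟨G, _, ι, hinj, hι⟩
    let a0 : Fin n := ⟨0, by omega⟩
    let a1 : Fin n := ⟨1, by omega⟩
    let a2 : Fin n := ⟨2, by omega⟩
    have e1 : (cl a2 a0 : Γ n) = cl a1 a2 := Subtype.ext (show c 2 0 = c 1 2 by decide)
    have e2 : (cl a0 a0 : Γ n) = cl a1 a1 := Subtype.ext (show c 0 0 = c 1 1 by decide)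
    have e3 : (cl a0 a0 : Γ n) = cl a2 a2 := Subtype.ext (show c 0 0 = c 2 2 by decide)
    -- `g = [e_02]`, `h = [e_20] = [e_12]`, `k = [e_21]`
    have s1 := hι _ _ _ (op_cl n a0 a2 a0)
    have s2 := hι _ _ _ (op_cl n a1 a2 a1)
    have s3 := hι _ _ _ (op_cl n a0 a2 a2)
    have s4 := hι _ _ _ (op_cl n a2 a2 a1)
    have h5 : ι (cl a0 a0) * ι (cl a2 a1) = ι (cl a0 a2) * ι (cl a1 a1) := by
      rw [s1, e1, s2, mul_assoc]
    rw [e3, ← s4, ← e2, e3, ← s3] at h5
    have h6 := congrArg Subtype.val (hinj h5)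
    exact absurd (show c 2 1 = c 0 2 from h6) (by decide)

end Pool.Agent.Results.MP_5a34df_al.NonSemigroup
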